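import Pool.Agent.H487.EF.Stm
import Pool.Agent.H487.ED.Win
import Pool.Agent.H477.S.DFin
import Pool.Agent.H477.S.G1
import Pool.Agent.H477.E.ToS
import Pool.Agent.H294.S.LocA

set_option autoImplicit false

/-!
Project EF: `S_EVL` and `S_EVR`.
-/

open Finset Complex Filter Topology Metric Set MeasureTheory

namespace Pool.Agent.H487.EF

open Pool.Agent.Helper242.KK (FT Ph)
open Pool.Agent.H477.Jen
open Pool.Agent.H477.E
open Pool.Agent.H477.S (LB Mt lt S_HL S_A S_PER S_PROP S_MAX iter_shift lt_le lt_ge Mt_pos)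
open Pool.Agent.H487.ED (Ev nbrs)

theorem lt_eq {t : ℝ} (ht : 0 < t) : lt t = 1 / 2 * (Real.log t - Real.log (2 * Real.pi)) := by
  unfold lt
  rw [lamR_re ht]
  ring

/-- evenly spaced zeros from local spacing statements -/
theorem ev_common {ε e t R : ℝ} {k : ℕ} (he0 : 0 < e) (he6 : e ≤ 1 / 6) (heε : 3 * e ≤ ε) (ht : 1 ≤ t)
    (htl : 3 + 16 / e ≤ Real.log t) (hR : 2 * (Real.pi / lt t) ≤ R)
    (hreal : ∀ z : ℂ, |z.re - t| ≤ R → iteratedDeriv k (FT Ph) z = 0 → z.im = 0)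
    (hsim : ∀ z : ℂ, z.re = t → iteratedDeriv k (FT Ph) z = 0 → iteratedDeriv (k + 1) (FT Ph) z ≠ 0)
    (h1 : ∀ a b : ℝ, t - R ≤ a → b ≤ t + R → (1 + e) * (Real.pi / lt t) ≤ b - a →
      ∃ x : ℝ, a ≤ x ∧ x ≤ b ∧ iteratedDeriv k (FT Ph) x = 0)
    (h2 : ∀ x y : ℝ, t - R ≤ x → x < y → y ≤ t + R → iteratedDeriv k (FT Ph) x = 0 → iteratedDeriv k (FT Ph) y = 0 →
      (1 - e) * (Real.pi / lt t) ≤ y - x)
    {w : ℂ} (hw : iteratedDeriv k (FT Ph) w = 0) (hwt : w.re = t) : Ev ε k w := by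
  have hpi := Real.pi_pos
  have hpi3 := Real.pi_gt_three
  have hpi4 := Real.pi_lt_d2
  have ht0 : 0 < t := by linarith
  have hlam := lt_eq ht0
  have hl2 : Real.log (2 * Real.pi) ≤ 2 := by
    rw [Real.log_le_iff_le_exp (by positivity)]
    have h3 : Real.exp 2 = Real.exp 1 ^ 2 := by rw [← Real.exp_nat_mul]; norm_num
    have := Real.exp_one_gt_d9
    rw [h3]
    nlinarith
  have hl0 : 0 ≤ Real.log (2 * Real.pi) := Real.log_nonneg (by linarith)
  have h16 : 0 < 16 / e := by positivity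
  set L := Real.log t with hL
  set lam := lt t with hlamd
  have hlam0 : 0 < lam := by rw [hlam]; linarith
  have hs : 0 < Real.pi / lam := by positivity
  have hRe : 0 < R := by linarith
  have hwim : w.im = 0 := hreal w (by rw [hwt, sub_self, abs_zero]; linarith) hw
  obtain ⟨a, b, ha, hb, haZ, hbZ, hu, q1, q2, q3, q4⟩ := nbrs (Z := fun z : ℂ => iteratedDeriv k (FT Ph) z = 0) (t := t) (R := R)
    (s := Real.pi / lam) (e := e) (w := w) hs he0 he6 (fun z hz _ hz0 => hreal z hz hz0) h1 h2 hw hwim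
    (by rw [hwt, sub_self, abs_zero]; linarith)
  -- numerics: (π/lam) L/(2π) = L/(L - log 2π)
  have hq : Real.pi / lam * L / (2 * Real.pi) = L / (L - Real.log (2 * Real.pi)) := by
    rw [hlam]
    have : L - Real.log (2 * Real.pi) ≠ 0 := by
      have : 0 < L - Real.log (2 * Real.pi) := by linarith
      exact this.ne'
    field_simp
  have hD : 0 < L - Real.log (2 * Real.pi) := by linarith
  have hQ1 : 1 ≤ L / (L - Real.log (2 * Real.pi)) := by
    rw [one_le_div hD]; linarith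
  have hQ2 : L / (L - Real.log (2 * Real.pi)) ≤ 1 + e / 8 := by
    rw [div_le_iff₀ hD]
    have h5 : 16 ≤ e * (L - 2) := by
      have h6 : 16 / e ≤ L - 2 := by linarith
      rw [div_le_iff₀ he0] at h6
      linarith
    have h7 : e / 8 * (L - 2) ≤ e / 8 * (L - Real.log (2 * Real.pi)) := mul_le_mul_of_nonneg_left (by linarith) (by positivity)
    nlinarith
  have hLpos : 0 < L := by linarith
  have key : ∀ x : ℝ, (1 - e) * (Real.pi / lam) ≤ x → x ≤ (1 + 3 / 2 * e) * (Real.pi / lam) → |x * L / (2 * Real.pi) - 1| ≤ ε := by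
    intro x hx1 hx2
    have g1 : (1 - e) * (Real.pi / lam) * L / (2 * Real.pi) ≤ x * L / (2 * Real.pi) := by gcongr
    have g2 : x * L / (2 * Real.pi) ≤ (1 + 3 / 2 * e) * (Real.pi / lam) * L / (2 * Real.pi) := by gcongr
    have g3 : (1 - e) * (Real.pi / lam) * L / (2 * Real.pi) = (1 - e) * (L / (L - Real.log (2 * Real.pi))) := by
      rw [← hq]; ring
    have g4 : (1 + 3 / 2 * e) * (Real.pi / lam) * L / (2 * Real.pi) = (1 + 3 / 2 * e) * (L / (L - Real.log (2 * Real.pi))) := by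
      rw [← hq]; ring
    rw [g3] at g1
    rw [g4] at g2
    rw [abs_le]
    constructor
    · nlinarith
    · nlinarith
  refine ⟨hwim, hsim w hwt hw, a, b, ha, hb, haZ, hbZ, hu, ?_, ?_⟩
  · rw [hwt] at q1 q2 ⊢
    exact key _ q1 q2
  · rw [hwt] at q3 q4 ⊢
    exact key _ q3 q4

theorem lt_tendsto : Tendsto (fun t : ℝ => lt t) atTop atTop := by
  apply tendsto_atTop_mono' atTop (f₁ := fun t => 1 / 2 * Real.log t + (-1))
  · filter_upwards [eventually_ge_atTop 1] with t ht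
    have := lt_ge ht
    linarith
  · exact tendsto_atTop_add_const_right _ _ (Real.tendsto_log_atTop.const_mul_atTop (by norm_num))

theorem Xi_conj (t : ℝ) (v : ℂ) :
    (fun v : ℂ => FT Ph (t + v)) ((starRingEnd ℂ) v) = (starRingEnd ℂ) ((fun v : ℂ => FT Ph (t + v)) v) := by
  have h1 := FT_conj Pool.Agent.Helper242.KK.Ph_even ((t : ℂ) + v)
  have h2 : (starRingEnd ℂ) ((t : ℂ) + v) = t + (starRingEnd ℂ) v := by
    rw [map_add, conj_ofReal]
  rw [h2] at h1
  exact h1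

theorem Xi_diff (t : ℝ) : Differentiable ℂ (fun v : ℂ => FT Ph (t + v)) :=
  ker_Ph.FT_diff.comp (by fun_prop)

/-- transfer of the conclusions of `S_SPX` from the coordinate `v` to `z = t + v` -/
theorem spx_shift {t e R lam : ℝ} {k : ℕ}
    (h1 : ∀ a b : ℝ, -(R / 2) ≤ a → b ≤ R / 2 → (1 + e) * (Real.pi / lam) ≤ b - a →
      ∃ x : ℝ, a ≤ x ∧ x ≤ b ∧ iteratedDeriv k (fun v : ℂ => FT Ph (t + v)) x = 0)
    (h2 : ∀ x y : ℝ, -(R / 2) ≤ x → x < y → y ≤ R / 2 → iteratedDeriv k (fun v : ℂ => FT Ph (t + v)) x = 0 →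
      iteratedDeriv k (fun v : ℂ => FT Ph (t + v)) y = 0 → (1 - e) * (Real.pi / lam) ≤ y - x) :
    (∀ a b : ℝ, t - R / 2 ≤ a → b ≤ t + R / 2 → (1 + e) * (Real.pi / lam) ≤ b - a →
      ∃ x : ℝ, a ≤ x ∧ x ≤ b ∧ iteratedDeriv k (FT Ph) x = 0) ∧
    (∀ x y : ℝ, t - R / 2 ≤ x → x < y → y ≤ t + R / 2 → iteratedDeriv k (FT Ph) x = 0 →
      iteratedDeriv k (FT Ph) y = 0 → (1 - e) * (Real.pi / lam) ≤ y - x) := by
  have hc : ∀ x : ℝ, iteratedDeriv k (fun v : ℂ => FT Ph (t + v)) ((x - t : ℝ) : ℂ) = iteratedDeriv k (FT Ph) x := by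
    intro x
    rw [iter_shift]
    congr 1
    push_cast
    ring
  constructor
  · intro a b ha hb hab
    obtain ⟨x, hx1, hx2, hx3⟩ := h1 (a - t) (b - t) (by linarith) (by linarith) (by linarith)
    refine ⟨x + t, by linarith, by linarith, ?_⟩
    rw [← hc, add_sub_cancel_right]
    exact hx3
  · intro x y hx hxy hy hx0 hy0
    have := h2 (x - t) (y - t) (by linarith) (by linarith) (by linarith) (by rw [hc]; exact hx0) (by rw [hc]; exact hy0)
    linarith

theorem evl_proof (hSPX : S_SPX) (hHL : S_HL) (hA : S_A) : S_EVL := by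
  intro ε ε' hε hε'
  obtain ⟨e, hedef⟩ : ∃ e : ℝ, e = min ε (1 / 2) / 3 := ⟨_, rfl⟩
  have he0 : 0 < e := by rw [hedef]; have : 0 < min ε (1 / 2) := lt_min hε (by norm_num); linarith
  have he6 : e ≤ 1 / 6 := by rw [hedef]; have := min_le_right ε (1 / 2); linarith
  have heε : 3 * e ≤ ε := by rw [hedef]; have := min_le_left ε (1 / 2); linarith
  obtain ⟨ηs, hηs, hsp⟩ := hSPX e he0 (by linarith)
  obtain ⟨ε1, hε1⟩ : ∃ ε1 : ℝ, ε1 = min ε' (1 / 8) := ⟨_, rfl⟩
  have hε10 : 0 < ε1 := by rw [hε1]; exact lt_min hε' (by norm_num)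
  have hε1' : ε1 ≤ ε' := by rw [hε1]; exact min_le_left _ _
  have hε18 : ε1 ≤ 1 / 8 := by rw [hε1]; exact min_le_right _ _
  obtain ⟨δA, ηA, lamA, hδA, hηA, hlamA, HA⟩ := hA ε1 hε10 hε18
  obtain ⟨ηH, lamH, hηH, hlamH, HH⟩ := hHL (ε1 / 2) (ηs * ε1 / 8) (by positivity) (by linarith) (by positivity)
  have hpi := Real.pi_pos
  have hpi4 := Real.pi_lt_d2
  have hev : ∀ᶠ t : ℝ in atTop, 1 ≤ t ∧ 3 + 16 / e ≤ Real.log t ∧ lamA ≤ lt t ∧ lamH ≤ lt t ∧ 1 ≤ lt t ∧
      64 / ε1 ≤ lt t ∧ 2 / (ηs * ε1 / 8) ≤ lt t ∧ 1 * (3 + Real.log t) ^ 1 ≤ t := by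
    filter_upwards [eventually_ge_atTop 1, Real.tendsto_log_atTop.eventually_ge_atTop (3 + 16 / e),
      lt_tendsto.eventually_ge_atTop lamA, lt_tendsto.eventually_ge_atTop lamH, lt_tendsto.eventually_ge_atTop 1,
      lt_tendsto.eventually_ge_atTop (64 / ε1), lt_tendsto.eventually_ge_atTop (2 / (ηs * ε1 / 8)), ev_log_pow 1 3 1]
      with t a1 a2 a3 a4 a5 a6 a7 a8
    exact ⟨a1, a2, a3, a4, a5, a6, a7, a8⟩
  obtain ⟨T0, hT0⟩ := eventually_atTop.1 hev
  refine ⟨min δA (ε1 / 4), min ηA (min ηH (ηs * ε1 / 8)), T0, lt_min hδA (by positivity),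
    lt_min hηA (lt_min hηH (by positivity)), fun t h ht hh0 hh1 hLB k hk1 hk2 => ?_⟩
  obtain ⟨a1, a2, a3, a4, a5, a6, a7, a8⟩ := hT0 t ht
  have hM : 0 < Mt t := Mt_pos a1
  have hlle := lt_le a1
  obtain ⟨lam, hlam⟩ : ∃ lam : ℝ, lam = lt t := ⟨_, rfl⟩
  obtain ⟨M, hMM⟩ : ∃ M : ℝ, M = Mt t := ⟨_, rfl⟩
  rw [← hlam, ← hMM] at hLB
  rw [← hlam] at a3 a4 a5 a6 a7 hk1 hk2 hlle
  rw [← hMM] at hM
  have hlam0 : 0 < lam := by linarith
  have hk0 : (0:ℝ) < k := lt_of_lt_of_le (by positivity) hk1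
  have hkpos : 1 ≤ k := by
    have : 0 < k := by exact_mod_cast hk0
    exact this
  have hLA := hLB.mono (δ' := δA) (η' := ηA) hM.le hlam0.le (min_le_left _ _) (min_le_left _ _)
  have hLH := hLB.mono (δ' := ε1 / 2 / 2) (η' := ηH) hM.le hlam0.le ((min_le_right _ _).trans (by linarith))
    ((min_le_right _ _).trans (min_le_left _ _))
  have hηle : min ηA (min ηH (ηs * ε1 / 8)) ≤ ηs * ε1 / 8 := (min_le_right _ _).trans (min_le_right _ _)
  have hr0 : 0 ≤ (k:ℝ) / lam := by positivity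
  have hr1 : (k:ℝ) / lam ≤ 1 := by rw [div_le_one hlam0]; exact hk2
  have hr2 : h + ε' ≤ k / lam := by rw [le_div_iff₀ hlam0]; exact hk1
  have hlr : lam * (k / lam) = k := by field_simp
  have a6' : 64 ≤ lam * ε1 := by rw [div_le_iff₀ hε10] at a6; exact a6
  have a7' : 2 ≤ lam * (ηs * ε1 / 8) := by rw [div_le_iff₀ (by positivity)] at a7; exact a7
  -- two-sided bounds
  have htwo : ∀ v : ℂ, ‖v‖ ≤ ε1 / 4 →
      M * Real.exp k * Real.exp (-(lam * v.im) - ηs * (lam * (ε1 / 4))) ≤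
        ‖half (fun v : ℂ => FT Ph (t + v)) (-(I * ((k / lam : ℝ) : ℂ))) k v‖ ∧
      ‖half (fun v : ℂ => FT Ph (t + v)) (-(I * ((k / lam : ℝ) : ℂ))) k v‖ ≤
        M * Real.exp k * Real.exp (-(lam * v.im) + ηs * (lam * (ε1 / 4))) := by
    intro v hv
    have hvi := (abs_im_le_norm v).trans hv
    obtain ⟨b1, b2⟩ := abs_le.1 hvi
    constructor
    · refine le_trans ?_ (HH (fun v : ℂ => FT Ph (t + v)) M lam h k hM a4 hh0 hh1 hLH ?_ hk2 v (by linarith) (by linarith) (by linarith))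
      · rw [mul_assoc, ← Real.exp_add]
        apply mul_le_mul_of_nonneg_left _ hM.le
        apply Real.exp_le_exp.2
        have : 0 ≤ ηs * ε1 * lam := by positivity
        nlinarith
      · refine le_trans ?_ hk1
        apply mul_le_mul_of_nonneg_right _ hlam0.le
        linarith
    · refine (Pool.Agent.H294.S.half_up hLB hM hlam0 hr0 hr1 k (w := v) (by linarith) (T := k / lam - v.im) ?_ ?_ ?_).trans ?_
      · rw [abs_le]; constructor <;> linarith
      · rw [abs_of_nonneg (by linarith)]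
      · linarith
      · have e1 : lam * (k / lam - v.im) = k - lam * v.im := by rw [mul_sub, hlr]
        rw [e1]
        have e2 : Real.pi ≤ Real.exp (lam * (ηs * ε1 / 8)) :=
          (Pool.Agent.H294.S.pi_lt_exp_two.le).trans (Real.exp_le_exp.2 a7')
        have e3 : min ηA (min ηH (ηs * ε1 / 8)) * lam ≤ ηs * ε1 / 8 * lam := mul_le_mul_of_nonneg_right hηle hlam0.le
        calc Real.pi * (M * Real.exp (k - lam * v.im + min ηA (min ηH (ηs * ε1 / 8)) * lam))
            ≤ Real.exp (lam * (ηs * ε1 / 8)) * (M * Real.exp (k - lam * v.im + ηs * ε1 / 8 * lam)) := by gcongr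
          _ = M * Real.exp k * Real.exp (-(lam * v.im) + ηs * (lam * (ε1 / 4))) := by
              rw [mul_assoc M, ← Real.exp_add, mul_left_comm, ← Real.exp_add]
              congr 2
              ring
  obtain ⟨s0, s1, s2⟩ := hsp (fun v : ℂ => FT Ph (t + v)) (M * Real.exp k) lam (ε1 / 4) k (Xi_diff t) (fun v => Xi_conj t v)
    (by positivity) hlam0 (by positivity) hkpos htwo
  obtain ⟨t1, t2⟩ := spx_shift (t := t) s1 s2
  have hkt : 1 + (k:ℝ) ≤ t - 1 := by
    have : 0 ≤ Real.log t := Real.log_nonneg a1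
    rw [pow_one, one_mul] at a8
    linarith
  have hreal : ∀ z : ℂ, |z.re - t| ≤ ε1 / 4 / 2 → iteratedDeriv k (FT Ph) z = 0 → z.im = 0 := by
    intro z hz hz0
    by_contra him
    obtain ⟨b1, b2⟩ := abs_le.1 hz
    have h1 := strip_im_one k z hz0 (by linarith)
    have h2 : ‖z - t‖ ≤ 3 / 2 := by
      refine (norm_le_abs_re_add_abs_im _).trans ?_
      have e1 : (z - t).re = z.re - t := by simp
      have e2 : (z - t).im = z.im := by simp
      rw [e1, e2]
      linarith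
    refine HA (fun v : ℂ => FT Ph (t + v)) M lam h k hM a3 hh0 hh1 hLA ?_ hk2 (z - t) h2 (by simpa using him) ?_
    · refine le_trans ?_ hk1
      apply mul_le_mul_of_nonneg_right _ hlam0.le
      linarith
    · rw [iter_shift]
      have : (t:ℂ) + (z - t) = z := by ring
      rw [this]
      exact hz0
  have hsim : ∀ z : ℂ, z.re = t → iteratedDeriv k (FT Ph) z = 0 → iteratedDeriv (k + 1) (FT Ph) z ≠ 0 := by
    intro z hz hz0
    have h1 := hreal z (by rw [hz, sub_self, abs_zero]; positivity) hz0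
    have h2 : z = t := by
      apply Complex.ext
      · simp [hz]
      · simp [h1]
    have h3 := (s0 0 (by rw [norm_zero]; positivity) (by rw [iter_shift, add_zero, ← h2]; exact hz0)).2
    rw [iter_shift, add_zero] at h3
    rw [h2]
    exact h3
  constructor
  · intro w hw1 _ hw0
    rw [hlam] at t1 t2
    refine ev_common (R := ε1 / 4 / 2) he0 he6 heε a1 a2 ?_ hreal hsim t1 t2 hw0 hw1
    rw [← hlam, ← mul_div_assoc, div_le_iff₀ hlam0]
    nlinarith
  · obtain ⟨x, hx1, hx2, hx3⟩ := t1 (t - ε1 / 4 / 2) (t + ε1 / 4 / 2) le_rfl le_rfl (by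
      rw [← mul_div_assoc, div_le_iff₀ hlam0]
      nlinarith)
    refine ⟨x, ?_, hx3⟩
    rw [abs_le]
    constructor <;> linarith

theorem evr_proof (hSPX : S_SPX) (hTW : S_TWOR) : S_EVR := by
  intro ε hε
  obtain ⟨e, hedef⟩ : ∃ e : ℝ, e = min ε (1 / 2) / 3 := ⟨_, rfl⟩
  have he0 : 0 < e := by rw [hedef]; have : 0 < min ε (1 / 2) := lt_min hε (by norm_num); linarith
  have he6 : e ≤ 1 / 6 := by rw [hedef]; have := min_le_right ε (1 / 2); linarith
  have heε : 3 * e ≤ ε := by rw [hedef]; have := min_le_left ε (1 / 2); linarith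
  obtain ⟨ηs, hηs, hsp⟩ := hSPX e he0 (by linarith)
  obtain ⟨T1, HT⟩ := hTW (ηs / 16) (by positivity)
  obtain ⟨C, hC⟩ := xi_zeros (1 / 32) (by norm_num)
  have hpi := Real.pi_pos
  have hpi4 := Real.pi_lt_d2
  have hev : ∀ᶠ t : ℝ in atTop, 4 ≤ t ∧ T1 ≤ t ∧ 3 + 16 / e ≤ Real.log t ∧ 1 ≤ lt t ∧
      64 * 4 ≤ lt t ∧ 16 * (|C| + 4) ≤ Real.log t := by
    filter_upwards [eventually_ge_atTop 4, eventually_ge_atTop T1, Real.tendsto_log_atTop.eventually_ge_atTop (3 + 16 / e),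
      lt_tendsto.eventually_ge_atTop 1,
      lt_tendsto.eventually_ge_atTop (64 * 4), Real.tendsto_log_atTop.eventually_ge_atTop (16 * (|C| + 4))]
      with t a1 a2 a3 a4 a5 a6
    exact ⟨a1, a2, a3, a4, a5, a6⟩
  obtain ⟨T0, hT0⟩ := eventually_atTop.1 hev
  refine ⟨T0, fun t ht k hk1 hk2 w hwt hw => ?_⟩
  obtain ⟨a1, a2, a3, a4, a5, a6⟩ := hT0 t ht
  have ht1 : 1 ≤ t := by linarith
  have hM : 0 < Mt t := Mt_pos ht1
  have hlam0 : 0 < lt t := by linarith
  have hk0 : (0:ℝ) < k := by linarith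
  have hkpos : 1 ≤ k := by
    have : 0 < k := by exact_mod_cast hk0
    exact this
  have hlge := lt_ge ht1
  have hr1 : 1 ≤ (k:ℝ) / lt t := by rw [one_le_div hlam0]; exact hk1
  have htw := HT t a2 k hk1 hk2
  have hlr : lt t * (k / lt t / 16) = k / 16 := by field_simp
  obtain ⟨s0, s1, s2⟩ := hsp (fun v : ℂ => FT Ph (t + v)) (Mt t * Real.exp k) (lt t) (k / lt t / 16) k (Xi_diff t)
    (fun v => Xi_conj t v) (by positivity) hlam0 (by positivity) hkpos (by
      intro v hv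
      obtain ⟨b1, b2⟩ := htw v hv
      rw [hlr]
      constructor
      · refine le_trans (le_of_eq ?_) b1
        rw [mul_assoc, ← Real.exp_add]
        congr 2
        ring
      · refine b2.trans (le_of_eq ?_)
        rw [mul_assoc, ← Real.exp_add]
        congr 2
        ring)
  obtain ⟨t1, t2⟩ := spx_shift (t := t) s1 s2
  -- zeros are real and simple
  have hbad : ∀ z : ℂ, |z.re - t| ≤ 1 / 32 → iteratedDeriv k (FT Ph) z = 0 →
      ¬ (z.im ≠ 0 ∨ iteratedDeriv (k + 1) (FT Ph) z = 0) := by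
    intro z hz hz0 hbad
    have hes : -I * ((1 / 2 + I * z) - 1 / 2) = z := by
      have : -I * ((1 / 2 + I * z) - 1 / 2) = -(I * I) * z := by ring
      rw [this, I_mul_I, neg_neg, one_mul]
    have h1 := hC k (1 / 2 + I * z) ((xi_iter_zero k _).2 (by rw [hes]; exact hz0)) (by
      rcases hbad with h | h
      · left
        intro h3
        apply h
        simp at h3
        exact h3
      · right
        exact (xi_iter_zero (k + 1) _).2 (by rw [hes]; exact h))
    have him : (1 / 2 + I * z).im = z.re := by simp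
    rw [him] at h1
    have hs3 := abs_le.1 hz
    have h2 : Real.log (1 + z.re ^ 2) ≤ 2 * Real.log t + 2 := by
      have h3 : 1 + z.re ^ 2 ≤ Real.exp 2 * t ^ 2 := by
        have h7 : Real.exp 2 = Real.exp 1 ^ 2 := by rw [← Real.exp_nat_mul]; norm_num
        have h8 := Real.exp_one_gt_d9
        have h9 : (7 : ℝ) ≤ Real.exp 2 := by rw [h7]; nlinarith
        nlinarith
      calc Real.log (1 + z.re ^ 2) ≤ Real.log (Real.exp 2 * t ^ 2) := Real.log_le_log (by positivity) h3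
        _ = 2 * Real.log t + 2 := by
            rw [Real.log_mul (Real.exp_pos _).ne' (by positivity), Real.log_exp, Real.log_pow]
            push_cast
            ring
    have h3 := le_abs_self C
    have h4 : (1 / 8 + 1 / 32) * Real.log (1 + z.re ^ 2) ≤ (1 / 8 + 1 / 32) * (2 * Real.log t + 2) :=
      mul_le_mul_of_nonneg_left h2 (by norm_num)
    have h5 : 0 ≤ |C| := abs_nonneg C
    linarith
  refine ev_common (R := 1 / 32) he0 he6 heε ht1 a3 ?_ (fun z hz hz0 => ?_) (fun z hz hz0 => ?_)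
    (fun a b ha hb hab => t1 a b (by linarith) (by linarith) hab)
    (fun x y hx hxy hy hx0 hy0 => t2 x y (by linarith) hxy (by linarith) hx0 hy0) hw hwt
  · rw [← mul_div_assoc, div_le_iff₀ hlam0]
    nlinarith
  · by_contra h
    exact hbad z hz hz0 (Or.inl h)
  · intro h
    exact hbad z (by rw [hz, sub_self, abs_zero]; norm_num) hz0 (Or.inr h)

end Pool.Agent.H487.EF
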