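import Pool.Agent.H487.EF.Evl

set_option autoImplicit false

/-!
Project EF: the final statements in terms of `Ξ`.
-/

open Finset Complex Filter Topology Metric Set MeasureTheory

namespace Pool.Agent.H487.EF

open Pool.Agent.Helper242.KK (FT Ph)
open Pool.Agent.H477.Jen
open Pool.Agent.H477.E
open Pool.Agent.H477.S (LB Mt lt S_HL S_A S_PER S_PROP S_MAX iter_shift lt_le lt_ge Mt_pos)
open Pool.Agent.H487.ED (Ev S_DYA)

theorem lt_two {T t : ℝ} (hT : 1 ≤ T) (h1 : T ≤ t) (h2 : t ≤ 2 * T) : lt T ≤ lt t ∧ lt t ≤ lt T + 1 / 2 := by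
  have hT0 : 0 < T := by linarith
  rw [lt_eq hT0, lt_eq (by linarith)]
  have h3 : Real.log T ≤ Real.log t := Real.log_le_log hT0 h1
  have h4 : Real.log t ≤ Real.log (2 * T) := Real.log_le_log (by linarith) h2
  rw [Real.log_mul (by norm_num) hT0.ne'] at h4
  have h5 := Real.log_two_lt_d9
  constructor <;> linarith

/-- all zeros are evenly spaced for `k ≥ lt T` -/
theorem big0 (hEVL : S_EVL) (hEVR : S_EVR) (hLBL : S_LBL) {ε : ℝ} (hε : 0 < ε) : ∃ T0 : ℝ, 1 ≤ T0 ∧ ∀ T : ℝ, T0 ≤ T → ∀ k : ℕ,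
    lt T ≤ k → (k : ℝ) ^ 4 ≤ T → ∀ w : ℂ, iteratedDeriv k (FT Ph) w = 0 → T < w.re → w.re ≤ 2 * T → Ev ε k w := by
  obtain ⟨δ, η, T1, hδ, hη, h1⟩ := hEVL ε (1 / 4) hε (by norm_num)
  obtain ⟨T2, _, h2⟩ := hLBL (1 / 2) (by norm_num) le_rfl δ η hδ hη
  obtain ⟨T3, h3⟩ := hEVR ε hε
  have hev : ∀ᶠ T : ℝ in atTop, 1 ≤ T ∧ T1 ≤ T ∧ T2 ≤ T ∧ T3 ≤ T ∧ 2 ≤ lt T ∧ 1 * (3 + Real.log T) ^ 1 ≤ T := by
    filter_upwards [eventually_ge_atTop 1, eventually_ge_atTop T1, eventually_ge_atTop T2, eventually_ge_atTop T3,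
      lt_tendsto.eventually_ge_atTop 2, ev_log_pow 1 3 1] with T a1 a2 a3 a4 a5 a6
    exact ⟨a1, a2, a3, a4, a5, a6⟩
  obtain ⟨T0, hT0⟩ := eventually_atTop.1 hev
  refine ⟨max T0 1, le_max_right _ _, fun T hT k hk hk4 w hw hw1 hw2 => ?_⟩
  obtain ⟨a1, a2, a3, a4, a5, a6⟩ := hT0 T ((le_max_left _ _).trans hT)
  obtain ⟨t, ht⟩ : ∃ t : ℝ, t = w.re := ⟨_, rfl⟩
  rw [← ht] at hw1 hw2
  obtain ⟨b1, b2⟩ := lt_two a1 hw1.le hw2
  rcases le_or_gt (lt t) (k : ℝ) with hc | hc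
  · exact h3 t (by linarith) k hc (by linarith) w ht.symm hw
  · have hZF : ZF (1 / 2) t (2 * Real.log t) := by
      intro ρ hρ hρ1 _
      exact riemannZeta_ne_zero_of_one_le_re (by linarith) hρ
    have hLB := h2 t (by linarith) hZF
    refine (h1 t (1 / 2) (by linarith) (by norm_num) le_rfl hLB k ?_ hc.le).1 w ht.symm ?_ hw
    · linarith
    · refine strip_im_one k w hw ?_
      have hlle := lt_le (show 1 ≤ t by linarith)
      have h5 : Real.log t ≤ Real.log T + 1 := by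
        have : Real.log t ≤ Real.log (2 * T) := Real.log_le_log (by linarith) hw2
        rw [Real.log_mul (by norm_num) (by linarith)] at this
        have := Real.log_two_lt_d9
        linarith
      have h6 : 0 ≤ Real.log T := Real.log_nonneg a1
      rw [← ht]
      rw [pow_one, one_mul] at a6
      linarith

theorem cnt_diff_zero {k : ℕ} {P : ℂ → Prop} {T : ℝ} (hT : 0 ≤ T)
    (h : ∀ w : ℂ, iteratedDeriv k (FT Ph) w = 0 → T < w.re → w.re ≤ 2 * T → ¬ P w) :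
    cnt k P (2 * T) - cnt k P T ≤ 0 := by
  rw [cnt_split k P (show T ≤ 2 * T by linarith), add_sub_cancel_left]
  apply le_of_eq
  apply Finset.sum_eq_zero
  intro w hw
  exfalso
  rw [mem_cfil, Set.Finite.mem_toFinset] at hw
  obtain ⟨⟨h1, h2, h3⟩, h4, h5⟩ := hw
  exact h w h1 h5 h3 h4

theorem Nz_nonneg (σ T : ℝ) : 0 ≤ Nz σ T :=
  finsum_nonneg fun _ => finsum_nonneg fun _ => Nat.cast_nonneg _

/-- the hypothesis provided by `big0` -/
def BIG : Prop := ∀ ε : ℝ, 0 < ε → ∃ T0 : ℝ, 1 ≤ T0 ∧ ∀ T : ℝ, T0 ≤ T → ∀ k : ℕ,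
    lt T ≤ k → (k : ℝ) ^ 4 ≤ T → ∀ w : ℂ, iteratedDeriv k (FT Ph) w = 0 → T < w.re → w.re ≤ 2 * T → Ev ε k w

theorem fin2 (hMIDX : S_MIDX) (hBIG : BIG) {ε ε' : ℝ} (hε : 0 < ε) (hε' : 0 < ε') : ∃ T0 : ℝ, ∀ T : ℝ, T0 ≤ T → ∀ k : ℕ,
    ε' * Real.log T ≤ k → (k : ℝ) ^ 4 ≤ T →
    cnt k (fun w => ¬ Ev ε k w) (2 * T) - cnt k (fun w => ¬ Ev ε k w) T ≤ T ^ ε' * Nz (1 / 2 + 2 * k / Real.log T - ε') (3 * T) := by
  obtain ⟨T1, h1⟩ := hMIDX ε ε' hε hε'
  obtain ⟨T2, h20, h2⟩ := hBIG ε hε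
  refine ⟨max T1 T2, fun T hT k hk hk4 => ?_⟩
  have hT1 := (le_max_left _ _).trans hT
  have hT2 := (le_max_right _ _).trans hT
  rcases le_total (k : ℝ) (lt T) with hc | hc
  · exact h1 T hT1 k hk hc
  · refine (cnt_diff_zero (by linarith) fun w hw hw1 hw2 => not_not.2 (h2 T hT2 k hc hk4 w hw hw1 hw2)).trans ?_
    have := Nz_nonneg (1 / 2 + 2 * k / Real.log T - ε') (3 * T)
    have h3 : 0 ≤ T ^ ε' := Real.rpow_nonneg (by linarith) _
    positivity

theorem fin1 (hDYA : S_DYA) (hMIDX : S_MIDX) (hDENX : S_DENX) (hTOTX : S_TOTX) (hBIG : BIG) {ε : ℝ} (hε : 0 < ε) :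
    ∃ c C T0 : ℝ, 0 < c ∧ ∀ T : ℝ, T0 ≤ T → ∀ k : ℕ, (k : ℝ) ^ 4 ≤ T →
    cnt k (fun w => ¬ Ev ε k w) (2 * T) - cnt k (fun w => ¬ Ev ε k w) T ≤
      C * Real.exp (-c * k) * (cnt k (fun _ => True) (2 * T) - cnt k (fun _ => True) T) := by
  obtain ⟨cD, CD, TD, hcD, hD⟩ := hDYA ε hε
  obtain ⟨T1, h1⟩ := hMIDX ε (1 / 1000) hε (by norm_num)
  obtain ⟨c0, T2, hc0, h2⟩ := hDENX
  obtain ⟨T3, h3⟩ := hTOTX
  obtain ⟨T4, h40, h4⟩ := hBIG ε hε
  refine ⟨min cD (2 * c0), max CD 2, max (max TD T1) (max (max T2 T3) T4), lt_min hcD (by positivity), fun T hT k hk4 => ?_⟩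
  have b1 : TD ≤ T := ((le_max_left _ _).trans (le_max_left _ _)).trans hT
  have b2 : T1 ≤ T := ((le_max_right _ _).trans (le_max_left _ _)).trans hT
  have b3 : T2 ≤ T := ((le_max_left _ _).trans ((le_max_left _ _).trans (le_max_right _ _))).trans hT
  have b4 : T3 ≤ T := ((le_max_right _ _).trans ((le_max_left _ _).trans (le_max_right _ _))).trans hT
  have b5 : T4 ≤ T := ((le_max_right _ _).trans (le_max_right _ _)).trans hT
  have hT1 : 1 ≤ T := h40.trans b5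
  have hlog0 : 0 ≤ Real.log T := Real.log_nonneg hT1
  have hk0 : (0:ℝ) ≤ k := Nat.cast_nonneg k
  set A := cnt k (fun _ => True) (2 * T) - cnt k (fun _ => True) T with hA
  have hA0 : 0 ≤ A := by
    have := cnt_mono k (fun _ => True) (show T ≤ 2 * T by linarith)
    rw [hA]; linarith
  have hC2 : (2:ℝ) ≤ max CD 2 := le_max_right _ _
  rcases le_or_gt (400 * (k:ℝ)) (Real.log T) with hc | hc
  · refine (hD T b1 k hc).trans ?_
    apply mul_le_mul_of_nonneg_right _ hA0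
    calc CD * Real.exp (-cD * k) ≤ max CD 2 * Real.exp (-cD * k) :=
          mul_le_mul_of_nonneg_right (le_max_left _ _) (Real.exp_pos _).le
      _ ≤ max CD 2 * Real.exp (-min cD (2 * c0) * k) := by
          apply mul_le_mul_of_nonneg_left _ (by linarith)
          apply Real.exp_le_exp.2
          have := mul_le_mul_of_nonneg_right (min_le_left cD (2 * c0)) hk0
          linarith
  · rcases le_total (k : ℝ) (lt T) with hc2 | hc2
    · have hlogpos : 0 < Real.log T := by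
        rcases hlog0.eq_or_lt with h | h
        · exfalso
          have h5 := lt_le hT1
          rw [← h] at hc h5
          linarith
        · exact h
      have e1 := h1 T b2 k (by linarith) hc2
      have e2 := h2 T b3 (k / Real.log T) (by rw [div_le_div_iff₀ (by norm_num) hlogpos]; linarith)
      have e3 := h3 T b4 k (by linarith) hc2
      have e4 : 2 * (k / Real.log T) = 2 * k / Real.log T := by ring
      rw [e4] at e2
      rw [← hA] at e3
      have e5 := lt_le hT1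
      have e6 : T ^ (1 - c0) = T ^ (-c0) * T := by
        rw [sub_eq_add_neg, Real.rpow_add (by linarith), Real.rpow_one, mul_comm]
      have e7 : T ^ (-c0) ≤ Real.exp (-min cD (2 * c0) * k) := by
        rw [Real.rpow_def_of_pos (by linarith)]
        apply Real.exp_le_exp.2
        have g1 := mul_le_mul_of_nonneg_right (min_le_right cD (2 * c0)) hk0
        have g2 : c0 * (2 * k) ≤ c0 * Real.log T := mul_le_mul_of_nonneg_left (by linarith) hc0.le
        linarith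
      calc _ ≤ _ := e1
        _ ≤ T ^ (1 - c0) := e2
        _ = T ^ (-c0) * T := e6
        _ ≤ Real.exp (-min cD (2 * c0) * k) * (2 * A) := by
            apply mul_le_mul e7 (by linarith) (by linarith) (Real.exp_pos _).le
        _ = 2 * Real.exp (-min cD (2 * c0) * k) * A := by ring
        _ ≤ max CD 2 * Real.exp (-min cD (2 * c0) * k) * A := by gcongr
    · refine (cnt_diff_zero (by linarith) fun w hw hw1 hw2 => not_not.2 (h4 T b5 k hc2 hk4 w hw hw1 hw2)).trans ?_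
      positivity

end Pool.Agent.H487.EF
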