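import Pool.Agent.H487.EF.Stm
import Pool.Agent.H980.L.LBL
import Pool.Agent.H92.L.ZBL

set_option autoImplicit false

/-! Project EF: `S_LBL` from project L of helper477. -/

namespace Pool.Agent.H487.EF

theorem lbl_proof (hM : Pool.Agent.H477.S.S_MAX) (hP : Pool.Agent.H477.S.S_PROP) : S_LBL := by
  intro h hh0 hh1 δ η hδ hη
  obtain ⟨T0, hT0, H⟩ := Pool.Agent.H980.L.S_LBL_proof hM (Pool.Agent.H92.L.zbl hP) h hh0 hh1 δ η hδ hη
  exact ⟨T0, hT0, fun t ht hZ => H t ht (fun s hs hst => by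
    by_contra hcon
    exact hZ s hs (not_le.1 hcon) hst)⟩

end Pool.Agent.H487.EF
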