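import Pool.Agent.H487.ED.Stm
import Pool.Agent.H477.S.Stm4

set_option autoImplicit false

/-!
# Project EF (helper487): the zeros of ALL derivatives of `ξ` are evenly spaced (extension of project ED)

Goal (MP_db1c88_nt, RH page, weight 100): project ED treats `400 m ≤ log T`. Here `log T / 400 ≤ m ≤ T^{1/4}`: for `m ≥ (1/4 + ε) log T` ALL zeros of `ξ^{(m)}` at the
height `T` are simple, on the line and evenly spaced (`m ≥ (h/2 + ε) log T` if `ζ` has no zeros with `Re s > 1/2 + h`), below that all but `T^{-c}` of them.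
Tools: `LB`, `S_HL`, `S_A`, `S_PROP`, `S_MAX`, `Mt`, `lt` of `Pool/Agent/H477/S/Stm1.lean, Stm2.lean` (all proved: `Pool.Agent.H477.S.p_hl`, `p_a`, `p_prop`, `p_max` in `H477/S/FinB.lean`).

Deliver each as `theorem X_proof : S_X` (or with the listed hypotheses `S_Y → ... → S_X`).
-/

open Finset Complex Filter Topology Metric Set MeasureTheory

namespace Pool.Agent.H487.EF

open Pool.Agent.Helper242.KK (FT Ph)
open Pool.Agent.H477.Jen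
open Pool.Agent.H477.E
open Pool.Agent.H477.S (LB Mt lt S_HL S_A S_PER S_PROP S_MAX)
open Pool.Agent.H487.ED (Ev)

noncomputable section

/-- **S_SPX.** Real zeros of `f^{(k)}` from two-sided bounds of the half circle integral, scale free.

Proof. `P = half f u k`, `u = -(I r)`, `r = k/lam` (entire: `half_diff` in `H477/Jen/Simple.lean`), `G v = P v · cexp (-(I lam v))`: `|log (‖G‖/M)| ≤ η lam R` on `‖v‖ ≤ R`, so by
`logder` (`Pool/Agent/H294/S/LocA.lean`) `‖P'/P - I lam‖ ≤ C η lam ≤ ε' lam` for `‖v‖ ≤ R/2` (`ε' = ε/10`).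
(0) `half_decomp` (`H477/Jen/Four.lean`, `conj u = -u`): `2π u^k f^{(k)}(v)/k! = P(v) + (-1)^k conj (P (conj v))`. At a zero `v = x + iy`: `‖P(x+iy)‖ = ‖P(x-iy)‖`, but `d/dy log ‖P(x+iy)‖ = Re (i P'/P) ∈ [-(1+ε')lam, -(1-ε')lam]`,
so `y = 0`. Simplicity: `2π u^k f^{(k+1)}(x)/k! = P'(x) + (-1)^k conj (P'(x)) = P(x) (2 I lam + g - conj g)`, `g = P'/P - I lam`, since `(-1)^k conj (P x) = -P x`.
(1), (2): with `w = 1` or `w = I` a real `x` is a zero iff `(w P(x)).re = 0`. `P(y) = P(x) exp (∫_x^y P'/P)` for real `x < y` in the disc (same logarithmic derivative), and `Im ∫_x^y P'/P ∈ [(1-ε') lam (y-x), (1+ε') lam (y-x)]`.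
(2) Two zeros `x < y`: `exp(∫_x^y P'/P)` is real, so `sin (Im ∫_x^y P'/P) = 0` with `0 < Im ∫`, hence `π ≤ Im ∫_x^y ≤ (1+ε') lam (y-x)`. (1): on `[a,b]` the argument turns by more than `π`: intermediate value theorem for the
continuous function `s ↦ arg₀ + Im ∫_a^s P'/P` (or `turn'` of `Pool/Agent/H477/E/Loc4.lean`). -/
def S_SPX : Prop := ∀ ε : ℝ, 0 < ε → ε ≤ 1 / 2 → ∃ η : ℝ, 0 < η ∧ ∀ (f : ℂ → ℂ) (M lam R : ℝ) (k : ℕ), Differentiable ℂ f →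
  (∀ v, f ((starRingEnd ℂ) v) = (starRingEnd ℂ) (f v)) → 0 < M → 0 < lam → 0 < R → 1 ≤ k →
  (∀ v : ℂ, ‖v‖ ≤ R → M * Real.exp (-(lam * v.im) - η * (lam * R)) ≤ ‖half f (-(I * ((k / lam : ℝ) : ℂ))) k v‖ ∧
    ‖half f (-(I * ((k / lam : ℝ) : ℂ))) k v‖ ≤ M * Real.exp (-(lam * v.im) + η * (lam * R))) →
  (∀ v : ℂ, ‖v‖ ≤ R / 2 → iteratedDeriv k f v = 0 → v.im = 0 ∧ iteratedDeriv (k + 1) f v ≠ 0) ∧
  (∀ a b : ℝ, -(R / 2) ≤ a → b ≤ R / 2 → (1 + ε) * (Real.pi / lam) ≤ b - a → ∃ x : ℝ, a ≤ x ∧ x ≤ b ∧ iteratedDeriv k f x = 0) ∧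
  (∀ x y : ℝ, -(R / 2) ≤ x → x < y → y ≤ R / 2 → iteratedDeriv k f x = 0 → iteratedDeriv k f y = 0 →
    (1 - ε) * (Real.pi / lam) ≤ y - x)

/-- **S_TWOR.** The half circle integral of `Ξ` for large radii `r = k / lt t ≥ 1`, `k ≤ t^{1/4}`. From `S_PER` (`Pool.Agent.H477.S.p_per`).

Proof. Adapt `Pool/Agent/H685/S/HL.lean` (theorem `hl`) and `half_up` of `Pool/Agent/H294/S/LocA.lean`. Notation `λ = lt t`, `M = Mt t`, `r = k/λ ≤ t^{1/4}`, `w = v - i r e^{iz}`. By `fact_R` (`Jen/XiInst.lean`; `‖w‖ ≤ 2r`, so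
`‖θ‖ ≤ C (1+2r)²/t` is small) and `zeta_bounds` (a = 13/10), `lamR_im`: for `Im w ≤ -4/5`, `‖w‖ ≤ 2r`: `M exp(-λ Im w - 2r - A) ≤ ‖Ξ(t+w)‖ ≤ M exp(-λ Im w + 2r + A)`, and `2r + A ≤ (η/8) k` for `t` large since `r = k/λ`, `k ≥ λ`.
Lower bound: centre `|x| ≤ ρ` (`ρ` small, `ρ² ≤ η/4`): for `|z| < 3ρ` `Im w ≤ r/16 - r (1 - 6ρ) ≤ -(9/10) r ≤ -4/5`; `b(z) = Ξ(t+w) e^{-iλw}/M` has `|log |b|| ≤ η₁ k`, and
`Ξ(t + v - i r e^{ix}) e^{-ikx} = M e^{iλv} e^k exp(k P(x)) b(x)`, `P(z) = e^{iz} - 1 - iz`; `S_PER` with `K = k`. Outer part `ρ ≤ |x| ≤ π/2` and the upper bound: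
`‖Ξ(t+w)‖ ≤ M exp(λ max(|Im w|, 4/5) + (η₁) k)` for `‖w‖ ≤ 2r`: for `Im w ≤ -4/5` above; for `Im w ≥ 4/5` by conjugation; for `|Im w| ≤ 4/5` by `loc_R.bound` (`Jen/Loc.lean`, with `δ = 3/10`) at the height `t' = t + Re w` (`v = i Im w`), where
`‖HR(1/2 + i t')‖ ≤ 2 ‖HR(1/2+it)‖ e^{|Re w|}` (`fact_R` with real `v`) and `λ(t') ≤ λ + 1`. Here `|Im w| ≤ max (r cos x - Im v, r/16)`, and `max(r cos x - Im v, r/16, 4/5) ≤ r - Im v` always, `≤ r - Im v - ρ² r/5` for `|x| ≥ ρ`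
(`r - Im v ≥ 15/16 r ≥ 15/16 > 4/5`). -/
def S_TWOR : Prop := ∀ η : ℝ, 0 < η → ∃ T0 : ℝ, ∀ t : ℝ, T0 ≤ t → ∀ k : ℕ, lt t ≤ k → (k : ℝ) ^ 4 ≤ t → ∀ v : ℂ, ‖v‖ ≤ k / lt t / 16 →
  Mt t * Real.exp (-(lt t * v.im) + k - η * k) ≤ ‖half (fun w : ℂ => FT Ph (t + w)) (-(I * ((k / lt t : ℝ) : ℂ))) k v‖ ∧
  ‖half (fun w : ℂ => FT Ph (t + w)) (-(I * ((k / lt t : ℝ) : ℂ))) k v‖ ≤ Mt t * Real.exp (-(lt t * v.im) + k + η * k)

/-- `ζ` has no zeros with `Re ρ > 1/2 + h` and `|Im ρ - t| ≤ H` -/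
def ZF (h t H : ℝ) : Prop := ∀ ρ : ℂ, riemannZeta ρ = 0 → 1 / 2 + h < ρ.re → ¬ |ρ.im - t| ≤ H

/-- **S_LBL.** Local version of `S_LBX` (`H477/S/Stm4.lean`): only zeros at heights within `2 log t` of `t` matter. From `S_PROP` and `S_MAX`.

Proof. (a) Local version of `S_ZB`, copy `Pool/Agent/H628/S/ZB.lean`: for `1/2 + h + δ ≤ Re s`, `|Im s| ≥ T0`, if there are no zeros `ρ`, `Re ρ > 1/2 + h`, `|Im ρ - Im s| ≤ 2`, then `|log ‖ζ(s)‖| ≤ η log |Im s|` (`S_PROP` is applied on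
`ball (2 + i Im s) (3/2 - h - δ/2)`). (b) copy `Pool/Agent/H161/D/LBX.lean`: there `ZB h` is used only at points `s` with `|Im s - t| ≤ log t + 5`. -/
def S_LBL : Prop := ∀ h : ℝ, 0 ≤ h → h ≤ 1 / 2 → ∀ δ η : ℝ, 0 < δ → 0 < η → ∃ T0 : ℝ, 0 < T0 ∧
  ∀ t : ℝ, T0 ≤ t → ZF h t (2 * Real.log t) → LB (fun v : ℂ => FT Ph (t + v)) (Mt t) (lt t) h δ η

/-- **S_EVL.** Zeros of `Ξ^{(k)}` near a height with good local data. From `S_SPX`, `S_HL`, `S_A`. (helper487 does this one.) -/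
def S_EVL : Prop := ∀ ε ε' : ℝ, 0 < ε → 0 < ε' → ∃ δ η T0 : ℝ, 0 < δ ∧ 0 < η ∧ ∀ t h : ℝ, T0 ≤ t → 0 ≤ h → h ≤ 1 / 2 →
  LB (fun v : ℂ => FT Ph (t + v)) (Mt t) (lt t) h δ η → ∀ k : ℕ, (h + ε') * lt t ≤ k → (k : ℝ) ≤ lt t →
  (∀ w : ℂ, w.re = t → |w.im| ≤ 1 → iteratedDeriv k (FT Ph) w = 0 → Ev ε k w) ∧
  ∃ x : ℝ, |x - t| ≤ 1 / 4 ∧ iteratedDeriv k (FT Ph) x = 0

/-- **S_EVR.** The same for `k ≥ lt t`. From `S_SPX`, `S_TWOR`. (helper487 does this one.) -/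
def S_EVR : Prop := ∀ ε : ℝ, 0 < ε → ∃ T0 : ℝ, ∀ t : ℝ, T0 ≤ t → ∀ k : ℕ, lt t ≤ k → (k : ℝ) ^ 4 ≤ t →
  ∀ w : ℂ, w.re = t → iteratedDeriv k (FT Ph) w = 0 → Ev ε k w

/-- the number of the zeros of `ζ` with `Re ρ > σ` and `0 < Im ρ ≤ T`, with multiplicity -/
def Nz (σ T : ℝ) : ℝ := ∑ᶠ ρ ∈ {ρ : ℂ | riemannZeta ρ = 0 ∧ σ < ρ.re ∧ 0 < ρ.im ∧ ρ.im ≤ T}, (analyticOrderNatAt riemannZeta ρ : ℝ)

/-- **S_MIDX.** Zeros which are not evenly spaced, `ε' log T ≤ k ≤ lt T`, are bounded by the zeros of `ζ` to the right of `1/2 + 2k/log T - ε'`. To be proved from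
`S_EVL`, `S_LBL`, `S_UNITU` (`H477/E/StmU.lean`).

Proof. WLOG `ε' ≤ 1`. Let `h` run over the finite grid `h_j = j ε'/8`, `0 ≤ j`, `h_j ≤ 1/2`; `δ, η, T0` of `S_EVL ε (ε'/8)` and `T0(h_j)` of `S_LBL`; take the maximum of the `T0`. Given `k` let `h = h_j` be the largest grid point `≤ 2k/log T - ε'/2`
(exists as `2k/log T ≥ 2ε'`); then `(h + ε'/8) lt t ≤ k ≤ lt t` for `T ≤ t ≤ 2T` (`lt t ≤ (log T)/2 + 1/2`), and `h = 1/2` (up to `ε'/8`) or `h ≥ 2k/log T - 5ε'/8 - ...`, in all cases a zero of `ζ` with `Re ρ > 1/2 + h` has `Re ρ > 1/2 + 2k/log T - ε'` (note: if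
`2k/log T - ε'/2 > 1/2` then `h ≥ 1/2 - ε'/8` and `2k/log T ≤ 1` gives nothing, so in that case use `h = 1/2` itself: add `1/2` to the grid; there is no zero with `Re ρ > 1`).
A zero `w`, `T < Re w ≤ 2T`, with `¬ Ev ε k w` has `|Im w| ≤ 1` (`strip_im_one` in `H477/E/Strip.lean`), so with `t = Re w`: `¬ ZF h t (2 log t)`, i.e. there is a zero `ρ` of `ζ`, `Re ρ > 1/2 + h`, `|Im ρ - Re w| ≤ 2 log (2T)`. The set `B` of such zeros `ρ`,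
`0 < Im ρ ≤ 3T`, is finite (`Pool.Agent.Y24.Near.Z_fin`, `Pool.Agent.Y24.ZZ_fin`; see `Pool/Graph/R_pool_sql_team_seeded_1acbe0a2/Results/MP_164d34_nt/NearTheLine.lean`), with `#B ≤ Nz (1/2 + 2k/log T - ε') (3T)` as orders are `≥ 1`. The `w` belonging to `ρ` lie in
`|Re w - Im ρ| ≤ 2 log(2T)`, `|Im w| ≤ 1`: covered by `4 log(2T) + 2` discs `‖w - t_i‖ ≤ 2`, `t_i ≥ T - 5 log(2T)`, each of total order `≤ C log (3T)` (`S_UNITU`, `k ≤ (log t_i)/2`: `lt T ≤ (log T)/2 - 9/10`). So the left side is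
`≤ C' log² T · #B ≤ T^{ε'} Nz`. (`cnt`, `cfil`, `ordk_one`, `cnt_split`: `H477/E/Strip.lean`, `Card.lean`.) -/
def S_MIDX : Prop := ∀ ε ε' : ℝ, 0 < ε → 0 < ε' → ∃ T0 : ℝ, ∀ T : ℝ, T0 ≤ T → ∀ k : ℕ, ε' * Real.log T ≤ k → (k : ℝ) ≤ lt T →
  cnt k (fun w => ¬ Ev ε k w) (2 * T) - cnt k (fun w => ¬ Ev ε k w) T ≤ T ^ ε' * Nz (1 / 2 + 2 * k / Real.log T - ε') (3 * T)

/-- **S_DENX.** From the density theorem `Pool.Agent.Y24.density` (`c = 1`; statement in `NearTheLine.lean`, see above): `Nz σ X ≤ C X^{1-(σ-1/2)} log X` for `1/2 ≤ σ ≤ 1`, and `Nz σ X = 0` for `σ ≥ 1`. -/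
def S_DENX : Prop := ∃ c T0 : ℝ, 0 < c ∧ ∀ T : ℝ, T0 ≤ T → ∀ x : ℝ, 1 / 400 ≤ x → T ^ (1 / 1000 : ℝ) * Nz (1 / 2 + 2 * x - 1 / 1000) (3 * T) ≤ T ^ (1 - c)

/-- **S_TOTX.** Lower bound for the number of all zeros. To be proved from `S_EVL` (with `ε = 1`, `ε' = 1/1000`), `S_LBL` (with `h = 1/1000`), and the density theorem (as in `S_DENX`).

Proof. `h = ε' = 1/1000`: `(h + ε') lt t ≤ k ≤ lt t` for `T ≤ t ≤ 2T`, `T` large. For each integer `n` with `T < n - 1/4`, `n + 1/4 ≤ 2T`: either `ZF h n (2 log n)` and then there is a real zero `x` of `Ξ^{(k)}`, `|x - n| ≤ 1/4` (`S_LBL`, second part of `S_EVL`), or there is a zero `ρ` of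
`ζ`, `Re ρ > 1/2 + h`, `|Im ρ - n| ≤ 2 log (2T)`; the latter happens for at most `#B (4 log(2T) + 1) ≤ C T^{1-h} log² T` integers `n`. So there are `≥ T - 3 - C T^{1-h} log² T ≥ T/2` distinct zeros in `(T, 2T]` (`card_le_cnt`-type lemma in `Card.lean`, orders `≥ 1`). -/
def S_TOTX : Prop := ∃ T0 : ℝ, ∀ T : ℝ, T0 ≤ T → ∀ k : ℕ, Real.log T / 400 ≤ k → (k : ℝ) ≤ lt T →
  T / 2 ≤ cnt k (fun _ => True) (2 * T) - cnt k (fun _ => True) T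

end

end Pool.Agent.H487.EF
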