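import Pool.Agent.H487.EF.Fin
import Pool.Agent.H477.E.ToS
import Pool.Agent.H477.S.DFin

set_option autoImplicit false

/-!
Project EF: translation to the derivatives of `xi`.
-/

open Finset Complex Filter Topology Metric Set MeasureTheory

namespace Pool.Agent.H487.EF

open Pool.Agent.Helper242.KK (FT Ph)
open Pool.Agent.H477.Jen
open Pool.Agent.H477.E
open Pool.Agent.H477.S (LB Mt lt S_HL S_A S_PER S_PROP S_MAX iter_shift lt_le lt_ge Mt_pos Off)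
open Pool.Agent.H487.ED (Ev)

/-- evenly spaced zeros of `ξ^{(m)}` -/
def EvX (ε : ℝ) (m : ℕ) (s : ℂ) : Prop := s.re = 1 / 2 ∧ iteratedDeriv (m + 1) xi s ≠ 0 ∧ ∃ a b : ℝ, a < s.im ∧ s.im < b ∧
  iteratedDeriv m xi (1 / 2 + a * I) = 0 ∧ iteratedDeriv m xi (1 / 2 + b * I) = 0 ∧
  (∀ z : ℂ, iteratedDeriv m xi z = 0 → a < z.im → z.im < b → z = s) ∧
  |(s.im - a) * Real.log s.im / (2 * Real.pi) - 1| ≤ ε ∧ |(b - s.im) * Real.log s.im / (2 * Real.pi) - 1| ≤ ε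

theorem neg_I_mul_re (s : ℂ) : (-I * (s - 1 / 2)).re = s.im := by simp

theorem neg_I_mul_im (s : ℂ) : (-I * (s - 1 / 2)).im = 1 / 2 - s.re := by simp

theorem line_pt (a : ℝ) : -I * ((1 / 2 + a * I : ℂ) - 1 / 2) = a := by
  have : -I * ((1 / 2 + a * I : ℂ) - 1 / 2) = -(I * I) * a := by ring
  rw [this, I_mul_I, neg_neg, one_mul]

theorem back_pt (w : ℂ) : -I * ((1 / 2 + I * w : ℂ) - 1 / 2) = w := by
  have : -I * ((1 / 2 + I * w : ℂ) - 1 / 2) = -(I * I) * w := by ring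
  rw [this, I_mul_I, neg_neg, one_mul]

theorem evx_iff (ε : ℝ) (m : ℕ) (s : ℂ) : EvX ε m s ↔ Ev ε m (-I * (s - 1 / 2)) := by
  unfold EvX Ev
  rw [neg_I_mul_re, neg_I_mul_im]
  have h1 : s.re = 1 / 2 ↔ 1 / 2 - s.re = 0 := by
    constructor
    · intro h; linarith
    · intro h; linarith
  refine and_congr h1 (and_congr (not_congr (xi_iter_zero (m + 1) s)) (exists_congr fun a => exists_congr fun b => ?_))
  refine and_congr Iff.rfl (and_congr Iff.rfl (and_congr ?_ (and_congr ?_ (and_congr ?_ Iff.rfl))))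
  · rw [xi_iter_zero, line_pt]
  · rw [xi_iter_zero, line_pt]
  · constructor
    · intro h w hw h1 h2
      have h3 := h (1 / 2 + I * w) ((xi_iter_zero m _).2 (by rw [back_pt]; exact hw)) (by simpa using h1) (by simpa using h2)
      rw [← h3, back_pt]
    · intro h z hz h1 h2
      have h3 := h (-I * (z - 1 / 2)) ((xi_iter_zero m z).1 hz) (by rw [neg_I_mul_re]; exact h1) (by rw [neg_I_mul_re]; exact h2)
      have h4 := mul_left_cancel₀ (neg_ne_zero.2 I_ne_zero) h3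
      linear_combination h4

theorem num_eq (m : ℕ) {T : ℝ} (hT : 0 ≤ T) (P Q : ℂ → Prop) (hPQ : ∀ s, P s ↔ Q (-I * (s - 1 / 2))) :
    ∑ᶠ s ∈ {s : ℂ | iteratedDeriv m xi s = 0 ∧ (T < s.im ∧ s.im ≤ 2 * T) ∧ P s}, (analyticOrderNatAt (iteratedDeriv m xi) s : ℝ) =
      cnt m Q (2 * T) - cnt m Q T := by
  have h1 := count_eq m (2 * T) (fun s => P s ∧ T < s.im) (fun w => Q w ∧ T < w.re) (fun s => by
    rw [neg_I_mul_re]
    exact and_congr (hPQ s) Iff.rfl)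
  rw [cnt_split m Q (show T ≤ 2 * T by linarith), add_sub_cancel_left]
  have h2 : {s : ℂ | iteratedDeriv m xi s = 0 ∧ (T < s.im ∧ s.im ≤ 2 * T) ∧ P s} =
      {s : ℂ | iteratedDeriv m xi s = 0 ∧ (0 < s.im ∧ s.im ≤ 2 * T) ∧ P s ∧ T < s.im} := by
    ext s
    simp only [Set.mem_ofPred_eq]
    constructor
    · rintro ⟨a, ⟨b, c⟩, d⟩
      exact ⟨a, ⟨by linarith, c⟩, d, b⟩
    · rintro ⟨a, ⟨b, c⟩, d, e⟩
      exact ⟨a, ⟨e, c⟩, d⟩
  rw [h2]
  exact h1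

theorem num_fin (m : ℕ) {T : ℝ} (hT : 0 ≤ T) (P : ℂ → Prop) :
    {s : ℂ | iteratedDeriv m xi s = 0 ∧ (T < s.im ∧ s.im ≤ 2 * T) ∧ P s}.Finite :=
  (zeros_finite m (2 * T)).subset fun _ h => ⟨h.1, by linarith [h.2.1.1], h.2.1.2⟩

/-- if the count is `≤ 0` every zero has the property -/
theorem all_of_cnt {m : ℕ} {Q : ℂ → Prop} {T : ℝ} (hT : 0 ≤ T) (h : cnt m (fun w => ¬ Q w) (2 * T) - cnt m (fun w => ¬ Q w) T ≤ 0)
    {w : ℂ} (hw : iteratedDeriv m (FT Ph) w = 0) (h1 : T < w.re) (h2 : w.re ≤ 2 * T) : Q w := by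
  by_contra hcon
  rw [cnt_split m _ (show T ≤ 2 * T by linarith), add_sub_cancel_left] at h
  have hmem : w ∈ cfil (fun w => ¬ Q w ∧ T < w.re) (ZA_fin m (2 * T)).toFinset := by
    rw [mem_cfil, Set.Finite.mem_toFinset]
    exact ⟨⟨hw, by linarith, h2⟩, hcon, h1⟩
  have h3 := Finset.single_le_sum (f := ordk m) (fun i _ => ordk_nonneg m i) hmem
  have h4 := ordk_one m hw
  linarith

/-- zero-free half-planes and even spacing -/
theorem crit (hMIDX : S_MIDX) (hBIG : BIG)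
    (hB : (∃ c T0 : ℝ, c < 1 / 4 ∧ ∀ t : ℝ, T0 ≤ t → ∃ m : ℕ, (m : ℝ) ≤ c * Real.log t ∧ ¬ Off m t) →
      ∃ η : ℝ, 0 < η ∧ ∀ s : ℂ, 1 - η < s.re → riemannZeta s ≠ 0) {ε : ℝ} (hε : 0 < ε) :
    (∃ σ₀ : ℝ, σ₀ < 1 ∧ ∀ s : ℂ, σ₀ < s.re → riemannZeta s ≠ 0) ↔
    ∃ c T0 : ℝ, c < 1 / 4 ∧ ∀ T : ℝ, T0 ≤ T → ∀ m : ℕ, c * Real.log T ≤ m → (m : ℝ) ^ 4 ≤ T →
      ∀ s : ℂ, iteratedDeriv m xi s = 0 → T < s.im → s.im ≤ 2 * T → EvX ε m s := by
  constructor
  · rintro ⟨σ, hσ, hz⟩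
    obtain ⟨h, hh⟩ : ∃ h : ℝ, h = max (σ - 1 / 2) 0 := ⟨_, rfl⟩
    have hh0 : 0 ≤ h := hh ▸ le_max_right _ _
    have hhs : σ - 1 / 2 ≤ h := hh ▸ le_max_left _ _
    have hh1 : h < 1 / 2 := hh ▸ max_lt (by linarith) (by norm_num)
    obtain ⟨T0, hT0⟩ := fin2 hMIDX hBIG hε (show 0 < (1 / 2 - h) / 4 by linarith)
    refine ⟨h / 2 + (1 / 2 - h) / 4, max T0 2, by linarith, fun T hT m hm hm4 s hs h1 h2 => ?_⟩
    have hTT : T0 ≤ T := (le_max_left _ _).trans hT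
    have hT2 : 2 ≤ T := (le_max_right _ _).trans hT
    have hlog : 0 < Real.log T := Real.log_pos (by linarith)
    have hb := hT0 T hTT m (by
      refine le_trans ?_ hm
      apply mul_le_mul_of_nonneg_right _ hlog.le
      linarith) hm4
    have hN : Nz (1 / 2 + 2 * m / Real.log T - (1 / 2 - h) / 4) (3 * T) = 0 := by
      unfold Nz
      apply finsum_mem_eq_zero_of_forall_eq_zero
      rintro ρ ⟨r1, r2, _, _⟩
      exfalso
      refine hz ρ ?_ r1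
      have h3 : 2 * (h / 2 + (1 / 2 - h) / 4) ≤ 2 * m / Real.log T := by
        rw [le_div_iff₀ hlog]
        linarith
      linarith
    rw [hN, mul_zero] at hb
    rw [evx_iff]
    exact all_of_cnt (Q := fun w => Ev ε m w) (by linarith) hb ((xi_iter_zero m s).1 hs) (by rw [neg_I_mul_re]; exact h1)
      (by rw [neg_I_mul_re]; exact h2)
  · rintro ⟨c, T0, hc, H⟩
    obtain ⟨b, hb⟩ : ∃ b : ℝ, b = max c 0 := ⟨_, rfl⟩
    have hb0 : 0 ≤ b := hb ▸ le_max_right _ _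
    have hbc : c ≤ b := hb ▸ le_max_left _ _
    have hb4 : b < 1 / 4 := hb ▸ max_lt hc (by norm_num)
    have hev : ∀ᶠ t : ℝ in atTop, 6 ≤ t ∧ T0 + 2 ≤ t ∧ 2 / (1 / 4 - b) ≤ Real.log t ∧ 1 * (2 + Real.log t) ^ 4 ≤ t := by
      filter_upwards [eventually_ge_atTop 6, eventually_ge_atTop (T0 + 2),
        Real.tendsto_log_atTop.eventually_ge_atTop (2 / (1 / 4 - b)), ev_log_pow 1 2 4] with t a1 a2 a3 a4
      exact ⟨a1, a2, a3, a4⟩
    obtain ⟨T1, hT1⟩ := eventually_atTop.1 hev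
    obtain ⟨η, hη, hz⟩ := hB ⟨b + (1 / 4 - b) / 2, T1, by linarith, fun t ht => by
      obtain ⟨a1, a2, a3, a4⟩ := hT1 t ht
      have hlog : 0 ≤ Real.log t := Real.log_nonneg (by linarith)
      have hlogT : 0 ≤ Real.log (t - 2) := Real.log_nonneg (by linarith)
      have hlogle : Real.log (t - 2) ≤ Real.log t := Real.log_le_log (by linarith) (by linarith)
      rw [div_le_iff₀ (by linarith)] at a3
      have hup : (⌈b * Real.log t⌉₊ : ℝ) ≤ b * Real.log t + 1 := (Nat.ceil_lt_add_one (mul_nonneg hb0 hlog)).le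
      have hlo : b * Real.log t ≤ (⌈b * Real.log t⌉₊ : ℝ) := Nat.le_ceil _
      refine ⟨⌈b * Real.log t⌉₊, by linarith, ?_⟩
      rintro ⟨s, hs0, hs1, hs2⟩
      obtain ⟨e1, e2⟩ := abs_le.1 hs2
      apply hs1
      refine (H (t - 2) (by linarith) ⌈b * Real.log t⌉₊ ?_ ?_ s hs0 (by linarith) (by linarith)).1
      · have h1 : c * Real.log (t - 2) ≤ b * Real.log (t - 2) := mul_le_mul_of_nonneg_right hbc hlogT
        have h2 : b * Real.log (t - 2) ≤ b * Real.log t := mul_le_mul_of_nonneg_left hlogle hb0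
        linarith
      · have h1 : (⌈b * Real.log t⌉₊ : ℝ) ≤ 1 + Real.log t := by
          have : b * Real.log t ≤ 1 * Real.log t := mul_le_mul_of_nonneg_right (by linarith) hlog
          linarith
        have h2 : (⌈b * Real.log t⌉₊ : ℝ) ^ 4 ≤ (1 + Real.log t) ^ 4 := pow_le_pow_left₀ (Nat.cast_nonneg _) h1 4
        have h3 : (1 + Real.log t) ^ 4 + 2 ≤ (2 + Real.log t) ^ 4 := by nlinarith [pow_nonneg hlog 2, pow_nonneg hlog 3, pow_nonneg hlog 4]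
        linarith⟩
    exact ⟨1 - η, by linarith, hz⟩

end Pool.Agent.H487.EF
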