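import Pool.Agent.H487.ED.Top
import Pool.Agent.H487.EF.ToXi
import Pool.Agent.H487.EF.Lbl
import Pool.Agent.H477.S.DAsm
import Pool.Agent.H548.EF.Spx
import Pool.Agent.H764.EF.Twor
import Pool.Agent.H980.EF.Midx
import Pool.Agent.H189.EF.Totx

set_option autoImplicit false

/-! Projects ED and EF, assembled. -/

namespace Pool.Agent.H487.EF

open Pool.Agent.H477.E
open Pool.Agent.H477.EU
open Pool.Agent.H477.S (p_max p_prop p_hl p_a p_per p_lbx p_tanx p_gl p_zb d_main)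
open Pool.Agent.H487.ED (Ev)

theorem t_LBL : S_LBL := lbl_proof p_max p_prop

theorem t_EVL : S_EVL := evl_proof Pool.Agent.H548.EF.spx_proof p_hl p_a

theorem t_EVR : S_EVR := evr_proof Pool.Agent.H548.EF.spx_proof (Pool.Agent.H764.EF.twor_proof p_per)

theorem t_MIDX : S_MIDX := Pool.Agent.H980.EF.midx_proof t_EVL t_LBL unitu

theorem t_TOTX : S_TOTX := Pool.Agent.H189.EF.totx_proof t_EVL t_LBL

theorem t_DENX : S_DENX := Pool.Agent.H189.EF.denx_proof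

theorem t_BIG : BIG := fun _ hε => big0 t_EVL t_EVR t_LBL hε

theorem t_fin1 {ε : ℝ} (hε : 0 < ε) :
    ∃ c C T0 : ℝ, 0 < c ∧ ∀ T : ℝ, T0 ≤ T → ∀ k : ℕ, (k : ℝ) ^ 4 ≤ T →
    cnt k (fun w => ¬ Ev ε k w) (2 * T) - cnt k (fun w => ¬ Ev ε k w) T ≤
      C * Real.exp (-c * k) * (cnt k (fun _ => True) (2 * T) - cnt k (fun _ => True) T) :=
  fin1 Pool.Agent.H487.ED.t_DYA t_MIDX t_DENX t_TOTX t_BIG hε

theorem t_fin2 {ε ε' : ℝ} (hε : 0 < ε) (hε' : 0 < ε') : ∃ T0 : ℝ, ∀ T : ℝ, T0 ≤ T → ∀ k : ℕ,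
    ε' * Real.log T ≤ k → (k : ℝ) ^ 4 ≤ T →
    cnt k (fun w => ¬ Ev ε k w) (2 * T) - cnt k (fun w => ¬ Ev ε k w) T ≤ T ^ ε' * Nz (1 / 2 + 2 * k / Real.log T - ε') (3 * T) :=
  fin2 t_MIDX t_BIG hε hε'

theorem t_crit {ε : ℝ} (hε : 0 < ε) :
    (∃ σ₀ : ℝ, σ₀ < 1 ∧ ∀ s : ℂ, σ₀ < s.re → riemannZeta s ≠ 0) ↔
    ∃ c T0 : ℝ, c < 1 / 4 ∧ ∀ T : ℝ, T0 ≤ T → ∀ m : ℕ, c * Real.log T ≤ m → (m : ℝ) ^ 4 ≤ T →
      ∀ s : ℂ, iteratedDeriv m Pool.Agent.H477.Jen.xi s = 0 → T < s.im → s.im ≤ 2 * T → EvX ε m s :=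
  crit t_MIDX t_BIG (d_main p_a p_lbx p_tanx p_gl p_zb).2.2 hε

end Pool.Agent.H487.EF
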